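import Pool.Agent.Helper741.QSym.Final

set_option autoImplicit false

namespace Pool.Agent.Results.MP_a717c1_al.CartesianSquare

open Pool.Agent.H741.QS

/-- The Cartesian square of a finite nonempty graph `X` has no quantum symmetry if and only if
`X` is connected, `X` has no quantum symmetry and `X` is not a Cartesian product of the complete
graph on two vertices with some graph. -/
theorem result (V : Type) [Fintype V] [Nonempty V] (X : SimpleGraph V) :
    NoQuantumSymmetry (X □ X) ↔
      X.Connected ∧ NoQuantumSymmetry X ∧
        ¬ ∃ (W : Type) (Y : SimpleGraph W), Nonempty (X ≃g ((⊤ : SimpleGraph Bool) □ Y)) := by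
  rw [main X]
  refine and_congr_right fun _ => and_congr_right fun _ => ?_
  constructor
  · rintro h ⟨W, Y, ⟨e⟩⟩
    have : Finite (Bool × W) := Finite.of_equiv V e.toEquiv
    have : Finite W := Finite.of_surjective (Prod.snd : Bool × W → W)
      fun w => ⟨(true, w), rfl⟩
    have := Fintype.ofFinite W
    exact (h W Y).false e
  · intro h W _ Y
    exact ⟨fun e => h ⟨W, Y, ⟨e⟩⟩⟩

end Pool.Agent.Results.MP_a717c1_al.CartesianSquare
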